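import Mathlib

/-!
Deciding diffeomorphism of homeomorphic smooth four-manifolds: one stabilisation.
-/

namespace Pool.Agent.U644.RC

/-- Codes of triangulated smooth compact four-manifolds, diffeomorphism, homeomorphism and
stabilisation (connected sum of every component with `S² × S²`, or with the twisted bundle if it is
not orientable). -/
structure Smooth where
  /-- codes of smooth compact four-manifolds -/
  Mf : ℕ → Prop
  /-- diffeomorphic -/
  Diff : ℕ → ℕ → Prop
  /-- homeomorphic -/
  Homeo : ℕ → ℕ → Prop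
  /-- stabilisation -/
  stab : ℕ → ℕ
  /-- test of a certificate (a sequence of subdivisions and Pachner moves) for a diffeomorphism -/
  cert : (ℕ × ℕ) × ℕ → Bool
  stab_comp : Computable stab
  cert_comp : Computable cert
  mf_stab : ∀ X, Mf X → Mf (stab X)
  diff_iff : ∀ X Y, Mf X → Mf Y → (Diff X Y ↔ ∃ c, cert ((X, Y), c) = true)
  diff_stab : ∀ X Y, Mf X → Mf Y → Diff X Y → Diff (stab X) (stab Y)
  homeo_stab : ∀ X Y, Mf X → Mf Y → Homeo X Y → Homeo (stab X) (stab Y)
  gompf : ∀ X Y, Mf X → Mf Y → Homeo X Y → ∃ k, Diff (stab^[k] X) (stab^[k] Y)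

variable (S : Smooth)

/-- An algorithm decides diffeomorphism for the pairs of homeomorphic smooth four-manifolds with
the property `P`. -/
def Smooth.Decides (P : ℕ → ℕ → Prop) : Prop :=
  ∃ f : ℕ × ℕ →. Bool, Partrec f ∧ ∀ X Y, S.Mf X → S.Mf Y → S.Homeo X Y → P X Y →
    ∃ b, b ∈ f (X, Y) ∧ (b = true ↔ S.Diff X Y)

/-- The least number `k` of stabilisations after which homeomorphic manifolds are diffeomorphic is
computable. -/
def Smooth.NumberComputable : Prop :=
  ∃ g : ℕ × ℕ →. ℕ, Partrec g ∧ ∀ X Y, S.Mf X → S.Mf Y → S.Homeo X Y →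
    ∃ k, k ∈ g (X, Y) ∧ S.Diff (S.stab^[k] X) (S.stab^[k] Y) ∧
      ∀ j < k, ¬ S.Diff (S.stab^[j] X) (S.stab^[j] Y)

variable {S}

lemma mf_iter (X : ℕ) (h : S.Mf X) (k : ℕ) : S.Mf (S.stab^[k] X) := by
  induction k with
  | zero => exact h
  | succ k ih =>
    rw [Function.iterate_succ_apply']
    exact S.mf_stab _ ih

lemma homeo_iter (X Y : ℕ) (hX : S.Mf X) (hY : S.Mf Y) (h : S.Homeo X Y) (k : ℕ) :
    S.Homeo (S.stab^[k] X) (S.stab^[k] Y) := by
  induction k with
  | zero => exact h
  | succ k ih =>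
    rw [Function.iterate_succ_apply', Function.iterate_succ_apply']
    exact S.homeo_stab _ _ (mf_iter X hX k) (mf_iter Y hY k) ih

lemma diff_iter_succ (X Y : ℕ) (hX : S.Mf X) (hY : S.Mf Y) (k : ℕ)
    (h : S.Diff (S.stab^[k] X) (S.stab^[k] Y)) :
    S.Diff (S.stab^[k + 1] X) (S.stab^[k + 1] Y) := by
  rw [Function.iterate_succ_apply', Function.iterate_succ_apply']
  exact S.diff_stab _ _ (mf_iter X hX k) (mf_iter Y hY k) h

/-- The pair of iterated stabilisations. -/
def st (S : Smooth) (x : ℕ × ℕ) (k : ℕ) : ℕ × ℕ := (S.stab^[k] x.1, S.stab^[k] x.2)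

lemma iter_computable {α : Type*} [Primcodable α] {u : α → ℕ} {v : α → ℕ} (hu : Computable u)
    (hv : Computable v) : Computable fun a => S.stab^[v a] (u a) := by
  have h : Computable fun a => Nat.rec (motive := fun _ => ℕ) (u a)
      (fun _ IH => S.stab IH) (v a) := by
    refine Computable.nat_rec (h := fun (_ : α) (q : ℕ × ℕ) => S.stab q.2) hv hu ?_
    exact (S.stab_comp.comp (Computable.snd.comp Computable.snd)).to₂
  refine h.of_eq fun a => ?_
  induction v a with
  | zero => rfl
  | succ k ih =>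
    rw [Function.iterate_succ_apply', ← ih]

lemma st_computable {α : Type*} [Primcodable α] {u : α → ℕ × ℕ} {v : α → ℕ} (hu : Computable u)
    (hv : Computable v) : Computable fun a => st S (u a) (v a) :=
  Computable.pair (iter_computable (Computable.fst.comp hu) hv)
    (iter_computable (Computable.snd.comp hu) hv)

/-- The search for a level on which the manifolds are diffeomorphic. -/
def search (S : Smooth) (x : ℕ × ℕ) : Part ℕ :=
  (Nat.rfind fun n => Part.some (S.cert (st S x n.unpair.1, n.unpair.2))).map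
    fun n => n.unpair.1

lemma search_partrec : Partrec (search S) := by
  have h1 : Computable fun p : (ℕ × ℕ) × ℕ => S.cert (st S p.1 p.2.unpair.1, p.2.unpair.2) := by
    refine S.cert_comp.comp (Computable.pair (st_computable Computable.fst ?_) ?_)
    · exact Computable.fst.comp (Primrec.unpair.to_comp.comp Computable.snd)
    · exact Computable.snd.comp (Primrec.unpair.to_comp.comp Computable.snd)
  have h2 : Partrec fun x : ℕ × ℕ =>
      Nat.rfind fun n => Part.some (S.cert (st S x n.unpair.1, n.unpair.2)) :=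
    Partrec.rfind (h1.partrec.to₂)
  refine h2.map ?_
  exact (Computable.fst.comp (Primrec.unpair.to_comp.comp Computable.snd)).to₂

lemma search_spec (X Y : ℕ) (hX : S.Mf X) (hY : S.Mf Y) (h : S.Homeo X Y) :
    ∃ k, k ∈ search S (X, Y) ∧ S.Diff (S.stab^[k] X) (S.stab^[k] Y) := by
  obtain ⟨k, hk⟩ := S.gompf X Y hX hY h
  obtain ⟨c, hc⟩ := (S.diff_iff _ _ (mf_iter X hX k) (mf_iter Y hY k)).1 hk
  have hdom : (Nat.rfind fun n =>
      Part.some (S.cert (st S (X, Y) n.unpair.1, n.unpair.2))).Dom := by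
    rw [Nat.rfind_dom]
    refine ⟨Nat.pair k c, ?_, fun _ => trivial⟩
    rw [Part.mem_some_iff, Nat.unpair_pair]
    exact hc.symm
  obtain ⟨n, hn⟩ := Part.dom_iff_mem.1 hdom
  have hn1 := (Nat.mem_rfind.1 hn).1
  rw [Part.mem_some_iff] at hn1
  refine ⟨n.unpair.1, ?_, ?_⟩
  · unfold search
    rw [Part.mem_map_iff]
    exact ⟨n, hn, rfl⟩
  · exact (S.diff_iff _ _ (mf_iter X hX _) (mf_iter Y hY _)).2 ⟨_, hn1.symm⟩

/-- The descent from level `k` to level `0`. -/
def descend (S : Smooth) (f : ℕ × ℕ →. Bool) (x : ℕ × ℕ) (k i : ℕ) : Part Bool :=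
  Nat.rec (motive := fun _ => Part Bool) (Part.some true)
    (fun j IH => IH.bind fun s => cond s (f (st S x (k - j - 1))) (Part.some false)) i

lemma descend_partrec {f : ℕ × ℕ →. Bool} (hf : Partrec f) :
    Partrec fun p : (ℕ × ℕ) × ℕ => descend S f p.1 p.2 p.2 := by
  unfold descend
  refine Partrec.nat_rec (f := fun p : (ℕ × ℕ) × ℕ => p.2) (g := fun _ => Part.some true)
    (h := fun (p : (ℕ × ℕ) × ℕ) (q : ℕ × Bool) =>
      cond q.2 (f (st S p.1 (p.2 - q.1 - 1))) (Part.some false)) Computable.snd ?_ ?_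
  · exact (Computable.const true).partrec
  · have h1 : Computable fun a : ((ℕ × ℕ) × ℕ) × (ℕ × Bool) => a.2.2 :=
      Computable.snd.comp Computable.snd
    have h2 : Computable fun a : ((ℕ × ℕ) × ℕ) × (ℕ × Bool) => a.1.2 - a.2.1 - 1 := by
      have h3 : Computable fun a : ((ℕ × ℕ) × ℕ) × (ℕ × Bool) => a.1.2 - a.2.1 :=
        Primrec.nat_sub.to_comp.comp (Computable.snd.comp Computable.fst)
          (Computable.fst.comp Computable.snd)
      exact Primrec.nat_sub.to_comp.comp h3 (Computable.const 1)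
    have h4 : Partrec fun a : ((ℕ × ℕ) × ℕ) × (ℕ × Bool) =>
        f (st S a.1.1 (a.1.2 - a.2.1 - 1)) :=
      hf.comp (st_computable (Computable.fst.comp Computable.fst) h2)
    exact (Partrec.cond h1 h4 (Computable.const false).partrec).to₂

lemma descend_spec {f : ℕ × ℕ →. Bool}
    (hf : ∀ X Y, S.Mf X → S.Mf Y → S.Homeo X Y → S.Diff (S.stab X) (S.stab Y) →
      ∃ b, b ∈ f (X, Y) ∧ (b = true ↔ S.Diff X Y))
    (X Y : ℕ) (hX : S.Mf X) (hY : S.Mf Y) (h : S.Homeo X Y) (k : ℕ)
    (hk : S.Diff (S.stab^[k] X) (S.stab^[k] Y)) (i : ℕ) (hi : i ≤ k) :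
    ∃ b, b ∈ descend S f (X, Y) k i ∧
      (b = true ↔ S.Diff (S.stab^[k - i] X) (S.stab^[k - i] Y)) := by
  induction i with
  | zero =>
    refine ⟨true, Part.mem_some _, ?_⟩
    simp [hk]
  | succ i ih =>
    obtain ⟨b, hb, hbiff⟩ := ih (by omega)
    have hstep : k - i = (k - i - 1) + 1 := by omega
    have hlev : k - (i + 1) = k - i - 1 := by omega
    rw [hlev]
    cases b with
    | false =>
      refine ⟨false, ?_, ?_⟩
      · show false ∈ (descend S f (X, Y) k i).bind
          fun s => cond s (f (st S (X, Y) (k - i - 1))) (Part.some false)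
        rw [Part.mem_bind_iff]
        exact ⟨false, hb, Part.mem_some _⟩
      · constructor
        · intro h0
          exact absurd h0 (by decide)
        · intro h0
          have h1 := diff_iter_succ X Y hX hY _ h0
          rw [← hstep] at h1
          exact hbiff.2 h1
    | true =>
      have h1 := hbiff.1 rfl
      rw [hstep, Function.iterate_succ_apply', Function.iterate_succ_apply'] at h1
      obtain ⟨b', hb', hb'iff⟩ := hf _ _ (mf_iter X hX (k - i - 1)) (mf_iter Y hY (k - i - 1))
        (homeo_iter X Y hX hY h _) h1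
      refine ⟨b', ?_, hb'iff⟩
      show b' ∈ (descend S f (X, Y) k i).bind
          fun s => cond s (f (st S (X, Y) (k - i - 1))) (Part.some false)
      rw [Part.mem_bind_iff]
      exact ⟨true, hb, hb'⟩

/-- **One stabilisation.** -/
theorem decides_iff_one :
    S.Decides (fun _ _ => True) ↔ S.Decides (fun X Y => S.Diff (S.stab X) (S.stab Y)) := by
  constructor
  · rintro ⟨f, hf, h⟩
    exact ⟨f, hf, fun X Y hX hY hh _ => h X Y hX hY hh trivial⟩
  · rintro ⟨f, hf, h⟩
    refine ⟨fun x => (search S x).bind fun k => descend S f x k k, ?_, ?_⟩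
    · exact Partrec.bind search_partrec (descend_partrec hf).to₂
    · intro X Y hX hY hh _
      obtain ⟨k, hk, hdiff⟩ := search_spec X Y hX hY hh
      obtain ⟨b, hb, hbiff⟩ := descend_spec h X Y hX hY hh k hdiff k le_rfl
      refine ⟨b, Part.mem_bind_iff.2 ⟨k, hk, hb⟩, ?_⟩
      rw [hbiff, Nat.sub_self]
      rfl

/-- **The stabilisation number.** -/
theorem decides_iff_number : S.Decides (fun _ _ => True) ↔ S.NumberComputable := by
  constructor
  · rintro ⟨f, hf, h⟩
    refine ⟨fun x => Nat.rfind fun j => f (st S x j), ?_, ?_⟩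
    · refine Partrec.rfind ?_
      exact (hf.comp (st_computable Computable.fst Computable.snd)).to₂
    · intro X Y hX hY hh
      have key : ∀ j, ∃ b, b ∈ f (st S (X, Y) j) ∧
          (b = true ↔ S.Diff (S.stab^[j] X) (S.stab^[j] Y)) := fun j =>
        h _ _ (mf_iter X hX j) (mf_iter Y hY j) (homeo_iter X Y hX hY hh j) trivial
      obtain ⟨k, hk⟩ := S.gompf X Y hX hY hh
      have hdom : (Nat.rfind fun j => f (st S (X, Y) j)).Dom := by
        rw [Nat.rfind_dom]
        obtain ⟨b, hb, hbiff⟩ := key k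
        have hb1 : b = true := hbiff.2 hk
        rw [hb1] at hb
        refine ⟨k, hb, fun {m} _ => ?_⟩
        obtain ⟨b', hb', _⟩ := key m
        exact Part.dom_iff_mem.2 ⟨b', hb'⟩
      obtain ⟨n, hn⟩ := Part.dom_iff_mem.1 hdom
      obtain ⟨hn1, hn2⟩ := Nat.mem_rfind.1 hn
      refine ⟨n, hn, ?_, fun j hj => ?_⟩
      · obtain ⟨b, hb, hbiff⟩ := key n
        exact hbiff.1 (Part.mem_unique hb hn1)
      · obtain ⟨b, hb, hbiff⟩ := key j
        have h1 := Part.mem_unique hb (hn2 hj)
        intro h2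
        have h3 := hbiff.2 h2
        rw [h1] at h3
        exact absurd h3 (by decide)
  · rintro ⟨g, hg, h⟩
    refine ⟨fun x => (g x).map fun k => decide (k = 0), ?_, ?_⟩
    · refine hg.map ?_
      have h1 : Primrec fun k : ℕ => decide (k = 0) := by
        have := (Primrec.eq (α := ℕ)).decide
        exact this.comp Primrec.id (Primrec.const 0)
      exact (h1.to_comp.comp Computable.snd).to₂
    · intro X Y hX hY hh _
      obtain ⟨k, hk, hdiff, hmin⟩ := h X Y hX hY hh
      refine ⟨decide (k = 0), Part.mem_map _ hk, ?_⟩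
      rw [decide_eq_true_iff]
      constructor
      · rintro rfl
        exact hdiff
      · intro h0
        by_contra hk0
        exact hmin 0 (Nat.pos_of_ne_zero hk0) h0

end Pool.Agent.U644.RC
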